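import Pool.Agent.J4H93.HN.Stm
import Pool.Agent.H305R2.MertensM

/-! Project HN, pieces ME0 and ME1: sums of the reciprocals of the primes. -/

set_option autoImplicit false

namespace Pool.Agent.J4H4.HN

open Finset Filter Topology
open Pool.Agent.J4H93.HN

/-- the sum over the primes up to `N` -/
noncomputable def SP (N : ℕ) : ℝ := ∑ p ∈ (Finset.Icc 1 N).filter Nat.Prime, (1 : ℝ) / p

theorem R_Ioc {a b : ℕ} (h : a ≤ b) : R ((Finset.Ioc a b).filter Nat.Prime) = SP b - SP a := by
  unfold R SP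
  have e : (Finset.Icc 1 b).filter Nat.Prime =
      (Finset.Icc 1 a).filter Nat.Prime ∪ (Finset.Ioc a b).filter Nat.Prime := by
    ext p
    simp only [Finset.mem_filter, Finset.mem_Icc, Finset.mem_union, Finset.mem_Ioc]
    constructor
    · rintro ⟨⟨h1, h2⟩, h3⟩
      by_cases h4 : p ≤ a
      · exact Or.inl ⟨⟨h1, h4⟩, h3⟩
      · exact Or.inr ⟨⟨by omega, h2⟩, h3⟩
    · rintro (⟨⟨h1, h2⟩, h3⟩ | ⟨⟨h1, h2⟩, h3⟩)
      · exact ⟨⟨h1, by omega⟩, h3⟩
      · exact ⟨⟨by omega, h2⟩, h3⟩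
  have d : Disjoint ((Finset.Icc 1 a).filter Nat.Prime) ((Finset.Ioc a b).filter Nat.Prime) := by
    rw [Finset.disjoint_left]
    intro p hp hq
    rw [Finset.mem_filter, Finset.mem_Icc] at hp
    rw [Finset.mem_filter, Finset.mem_Ioc] at hq
    omega
  rw [e, Finset.sum_union d]
  ring

theorem R_le {a b : ℕ} : R ((Finset.Ioc a b).filter Nat.Prime) ≤ SP b := by
  unfold R SP
  apply Finset.sum_le_sum_of_subset_of_nonneg
  · intro p hp
    rw [Finset.mem_filter, Finset.mem_Ioc] at hp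
    rw [Finset.mem_filter, Finset.mem_Icc]
    exact ⟨⟨by omega, hp.1.2⟩, hp.2⟩
  · intro p _ _
    positivity

theorem loglog_pow {Y m : ℕ} (hY : 2 ≤ Y) (hm : 1 ≤ m) :
    Real.log (Real.log ((Y ^ m : ℕ) : ℝ)) = Real.log m + Real.log (Real.log Y) := by
  have h1 : 0 < Real.log Y := Real.log_pos (by exact_mod_cast (by omega : 1 < Y))
  have h2 : (0 : ℝ) < m := by exact_mod_cast hm
  rw [Nat.cast_pow, Real.log_pow, Real.log_mul h2.ne' h1.ne']

theorem t_ME1 : S_ME1 := by
  obtain ⟨M, hT⟩ := Pool.Agent.H305R2.mertens_inv_tendsto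
  have hT' : Tendsto (fun N : ℕ => SP N - Real.log (Real.log N)) atTop (𝓝 M) := hT
  have h30 := hT'.comp (tendsto_pow_atTop (α := ℕ) (n := 30) (by norm_num))
  have h29 := hT'.comp (tendsto_pow_atTop (α := ℕ) (n := 29) (by norm_num))
  have h := h30.sub h29
  rw [sub_self] at h
  have hlim : Tendsto (fun Y : ℕ => R (PB Y)) atTop (𝓝 (Real.log (30 : ℕ) - Real.log (29 : ℕ))) := by
    have h1 := h.add_const (Real.log (30 : ℕ) - Real.log (29 : ℕ))
    rw [zero_add] at h1
    refine h1.congr' ?_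
    filter_upwards [eventually_ge_atTop 2] with Y hY
    unfold PB
    rw [R_Ioc (Nat.pow_le_pow_right (by omega) (by norm_num))]
    simp only [Function.comp]
    rw [loglog_pow hY (by norm_num), loglog_pow hY (by norm_num)]
    ring
  have e : Real.log (30 : ℕ) - Real.log (29 : ℕ) = Real.log (30 / 29) := by
    rw [Real.log_div (by norm_num) (by norm_num)]
    norm_num
  have hlo : (1 : ℝ) / 40 < Real.log (30 : ℕ) - Real.log (29 : ℕ) := by
    rw [e]
    have := Real.one_sub_inv_le_log_of_pos (show (0 : ℝ) < 30 / 29 by norm_num)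
    norm_num at this ⊢
    linarith
  have hhi : Real.log (30 : ℕ) - Real.log (29 : ℕ) < (1 : ℝ) / 2 := by
    rw [e]
    have := Real.log_le_sub_one_of_pos (show (0 : ℝ) < 30 / 29 by norm_num)
    norm_num at this ⊢
    linarith
  have e1 := hlim.eventually_const_lt hlo
  have e2 := hlim.eventually_lt_const hhi
  filter_upwards [e1, e2] with Y h1 h2
  exact ⟨h1.le, h2.le⟩

theorem t_ME0 : S_ME0 := by
  obtain ⟨M, hT⟩ := Pool.Agent.H305R2.mertens_inv_tendsto
  have hT' : Tendsto (fun N : ℕ => SP N - Real.log (Real.log N)) atTop (𝓝 M) := hT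
  obtain ⟨K1, hK1⟩ := hT'.bddAbove_range
  obtain ⟨K2, hK2⟩ := hT'.bddBelow_range
  have hup : ∀ N : ℕ, SP N ≤ K1 + Real.log (Real.log N) := fun N => by
    have h : SP N - Real.log (Real.log N) ≤ K1 := hK1 (Set.mem_range_self N)
    linarith
  have hdn : ∀ N : ℕ, K2 + Real.log (Real.log N) ≤ SP N := fun N => by
    have h : K2 ≤ SP N - Real.log (Real.log N) := hK2 (Set.mem_range_self N)
    linarith
  constructor
  · have hlog : Tendsto (fun V : ℕ => Real.log (V : ℝ)) atTop atTop :=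
      Real.tendsto_log_atTop.comp tendsto_natCast_atTop_atTop
    have hll : Tendsto (fun V : ℕ => Real.log (Real.log (V : ℝ))) atTop atTop :=
      Real.tendsto_log_atTop.comp hlog
    have hlow : Tendsto (fun V : ℕ => (K2 - K1) + 1 / 2 * Real.log (Real.log (V : ℝ))) atTop atTop :=
      tendsto_atTop_add_const_left _ _ (hll.const_mul_atTop (by norm_num))
    refine tendsto_atTop_mono' _ ?_ hlow
    have hsmall : ∀ᶠ s : ℝ in atTop, Real.log s ≤ 1 / 2 * s ^ (1 / 2 : ℝ) := by
      have h4 := (isLittleO_log_rpow_atTop (show (0 : ℝ) < 1 / 2 by norm_num)).bound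
        (show (0 : ℝ) < 1 / 2 by norm_num)
      filter_upwards [h4, eventually_ge_atTop (1 : ℝ)] with y hy hy1
      rwa [Real.norm_of_nonneg (Real.log_nonneg hy1),
        Real.norm_of_nonneg (Real.rpow_nonneg (by linarith) _)] at hy
    have hs2 := (hlog.const_mul_atTop (show (0 : ℝ) < 2 by norm_num)).eventually hsmall
    have hbig := hlog.eventually_gt_atTop 1
    filter_upwards [hs2, hbig, eventually_ge_atTop 4] with V h1 h2 h3
    obtain ⟨u, hu⟩ : ∃ u : ℕ, u = Nat.log 2 V := ⟨_, rfl⟩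
    have hu2 : 2 ≤ u := by
      rw [hu]
      calc 2 = Nat.log 2 4 := by norm_num
        _ ≤ Nat.log 2 V := Nat.log_mono_right h3
    have huV : u ≤ V := by
      rw [hu]
      exact Nat.log_le_self 2 V
    have hle : u ^ 3 ≤ V ^ 30 := by
      calc u ^ 3 ≤ V ^ 3 := Nat.pow_le_pow_left huV 3
        _ ≤ V ^ 30 := Nat.pow_le_pow_right (by omega) (by norm_num)
    have hR : R (PA V) = SP (V ^ 30) - SP (u ^ 3) := by
      unfold PA
      rw [← hu]
      exact R_Ioc hle
    rw [hR]
    have a1 := hdn (V ^ 30)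
    have a2 := hup (u ^ 3)
    rw [loglog_pow (by omega) (by norm_num)] at a1
    rw [loglog_pow hu2 (by norm_num)] at a2
    obtain ⟨t, ht⟩ : ∃ t : ℝ, t = Real.log (V : ℝ) := ⟨_, rfl⟩
    rw [← ht] at h1 h2 a1 ⊢
    have ht0 : 0 < t := by linarith
    have hu2t : (u : ℝ) ≤ 2 * t := by
      have b1 : 2 ^ u ≤ V := by
        rw [hu]
        exact Nat.pow_log_le_self 2 (by omega)
      have b2 : ((2 : ℝ)) ^ u ≤ V := by exact_mod_cast b1
      have b3 : (u : ℝ) * Real.log 2 ≤ t := by
        rw [ht, ← Real.log_pow]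
        exact Real.log_le_log (by positivity) b2
      have b4 : (1 : ℝ) / 2 ≤ Real.log 2 := by
        have := Real.log_two_gt_d9
        linarith
      have b5 : (0 : ℝ) ≤ u := Nat.cast_nonneg u
      nlinarith
    have hlu : 0 < Real.log u := Real.log_pos (by exact_mod_cast (by omega : 1 < u))
    have hu0 : (0 : ℝ) < u := by exact_mod_cast (by omega : 0 < u)
    have c1 : Real.log u ≤ Real.log (2 * t) := Real.log_le_log hu0 hu2t
    have c2 : (2 * t) ^ (1 / 2 : ℝ) ≤ 2 * t ^ (1 / 2 : ℝ) := by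
      rw [Real.mul_rpow (by norm_num) ht0.le]
      apply mul_le_mul_of_nonneg_right _ (by positivity)
      calc (2 : ℝ) ^ (1 / 2 : ℝ) ≤ (2 : ℝ) ^ (1 : ℝ) :=
            Real.rpow_le_rpow_of_exponent_le (by norm_num) (by norm_num)
        _ = 2 := Real.rpow_one 2
    have c3 : Real.log u ≤ t ^ (1 / 2 : ℝ) := by linarith
    have c4 : Real.log (Real.log u) ≤ 1 / 2 * Real.log t := by
      rw [← Real.log_rpow ht0]
      exact Real.log_le_log hlu c3
    have c5 : Real.log (3 : ℕ) ≤ Real.log (30 : ℕ) := Real.log_le_log (by norm_num) (by norm_num)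
    linarith
  · refine ⟨Real.exp K1 * 30, fun V hV => ?_⟩
    have h1 : R (PA V) ≤ K1 + Real.log (Real.log ((V ^ 30 : ℕ) : ℝ)) := R_le.trans (hup _)
    have h2 : 0 < Real.log V := Real.log_pos (by exact_mod_cast (by omega : 1 < V))
    calc Real.exp (R (PA V)) ≤ Real.exp (K1 + Real.log (Real.log ((V ^ 30 : ℕ) : ℝ))) :=
          Real.exp_le_exp.2 h1
      _ = Real.exp K1 * Real.log ((V ^ 30 : ℕ) : ℝ) := by
          rw [Real.exp_add, Real.exp_log]
          rw [Nat.cast_pow, Real.log_pow]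
          positivity
      _ = Real.exp K1 * 30 * Real.log V := by
          rw [Nat.cast_pow, Real.log_pow]
          push_cast
          ring

end Pool.Agent.J4H4.HN
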