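import Pool.Agent.J4H93.HN.Stm

/-! Project HN, piece PSI: the parameters. -/

set_option autoImplicit false

namespace Pool.Agent.J4H4.HN

open Finset Filter Topology
open Pool.Agent.J4H93.HN

theorem quad_le {x : ℝ} (hx : 0 ≤ x) (k : ℕ) :
    1 + k * x + k * (k - 1) / 2 * x ^ 2 ≤ (1 + x) ^ k := by
  induction k with
  | zero => simp
  | succ k ih =>
    rw [pow_succ]
    have h1 : (1 + k * x + k * (k - 1) / 2 * x ^ 2) * (1 + x) ≤ (1 + x) ^ k * (1 + x) :=
      mul_le_mul_of_nonneg_right ih (by linarith)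
    refine le_trans ?_ h1
    push_cast
    have h2 : 0 ≤ (k : ℝ) * (k - 1) / 2 * x ^ 3 := by
      rcases Nat.eq_zero_or_pos k with h | h
      · subst h
        simp
      · have : (1 : ℝ) ≤ k := by exact_mod_cast h
        have h3 : (0 : ℝ) ≤ (k : ℝ) - 1 := by linarith
        positivity
    nlinarith

theorem pow_step {k : ℕ} (hk : 2 ≤ k) : 9 / 4 * (k : ℝ) ^ k ≤ ((k + 1 : ℕ) : ℝ) ^ k := by
  have hk0 : (0 : ℝ) < k := by exact_mod_cast (by omega : 0 < k)
  have hk2 : (2 : ℝ) ≤ k := by exact_mod_cast hk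
  have h1 := quad_le (show (0 : ℝ) ≤ 1 / k by positivity) k
  have h2 : (9 : ℝ) / 4 ≤ 1 + k * (1 / k) + k * (k - 1) / 2 * (1 / k) ^ 2 := by
    have e : 1 + (k : ℝ) * (1 / k) + k * (k - 1) / 2 * (1 / k) ^ 2 = 5 / 2 - 1 / (2 * k) := by
      field_simp
      ring
    rw [e]
    have : 1 / (2 * (k : ℝ)) ≤ 1 / (2 * 2) := by
      apply one_div_le_one_div_of_le (by norm_num)
      linarith
    linarith
  have h3 : ((k + 1 : ℕ) : ℝ) ^ k = (1 + 1 / (k : ℝ)) ^ k * (k : ℝ) ^ k := by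
    rw [← mul_pow]
    congr 1
    push_cast
    field_simp
  rw [h3]
  exact mul_le_mul_of_nonneg_right (h2.trans h1) (by positivity)

theorem fact_le {k : ℕ} (hk : 2 ≤ k) : (Nat.factorial k : ℝ) * (9 / 4) ^ k ≤ 3 * (k : ℝ) ^ k := by
  induction k, hk using Nat.le_induction with
  | base => norm_num [Nat.factorial]
  | succ k hk ih =>
    have h1 := pow_step hk
    have h0 : (0 : ℝ) ≤ ((k + 1 : ℕ) : ℝ) := Nat.cast_nonneg _
    calc ((Nat.factorial (k + 1) : ℕ) : ℝ) * (9 / 4) ^ (k + 1)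
        = ((k + 1 : ℕ) : ℝ) * (9 / 4) * ((Nat.factorial k : ℝ) * (9 / 4) ^ k) := by
          rw [Nat.factorial_succ, Nat.cast_mul, pow_succ]
          ring
      _ ≤ ((k + 1 : ℕ) : ℝ) * (9 / 4) * (3 * (k : ℝ) ^ k) := by
          apply mul_le_mul_of_nonneg_left ih
          positivity
      _ = 3 * ((k + 1 : ℕ) : ℝ) * (9 / 4 * (k : ℝ) ^ k) := by ring
      _ ≤ 3 * ((k + 1 : ℕ) : ℝ) * ((k + 1 : ℕ) : ℝ) ^ k := by
          apply mul_le_mul_of_nonneg_left h1
          positivity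
      _ = 3 * ((k + 1 : ℕ) : ℝ) ^ (k + 1) := by
          rw [pow_succ]
          ring

/-- one term -/
theorem term_le {L : ℝ} (hL : 0 ≤ L) {n : ℕ} (hn : 2 * L ≤ n + 2) :
    (3 / 5 * L) ^ n / (Nat.factorial n : ℝ) ≤ Real.exp 2 * (3 / 10 * Real.exp 1) ^ n := by
  have h1 := Real.pow_div_factorial_le_exp (2 * L) (by linarith) n
  have e : (3 / 5 * L) ^ n / (Nat.factorial n : ℝ) =
      (3 / 10) ^ n * ((2 * L) ^ n / (Nat.factorial n : ℝ)) := by
    rw [← mul_div_assoc, ← mul_pow]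
    congr 2
    ring
  rw [e]
  calc (3 / 10 : ℝ) ^ n * ((2 * L) ^ n / (Nat.factorial n : ℝ))
      ≤ (3 / 10) ^ n * Real.exp (2 * L) := mul_le_mul_of_nonneg_left h1 (by positivity)
    _ ≤ (3 / 10) ^ n * Real.exp (n + 2) :=
        mul_le_mul_of_nonneg_left (Real.exp_le_exp.2 hn) (by positivity)
    _ = Real.exp 2 * (3 / 10 * Real.exp 1) ^ n := by
        rw [Real.exp_add, mul_pow, ← Real.exp_nat_mul, mul_one]
        ring

theorem floor_tendsto : Tendsto (fun L : ℝ => ⌊2 * L⌋₊) atTop atTop :=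
  tendsto_nat_floor_atTop.comp (tendsto_id.const_mul_atTop (by norm_num))

theorem t_PSI : S_PSI := by
  constructor
  · obtain ⟨ρ, hρ⟩ : ∃ ρ : ℝ, ρ = 3 / 10 * Real.exp 1 := ⟨_, rfl⟩
    have hρ0 : 0 < ρ := by
      rw [hρ]
      positivity
    have hρ1 : ρ < 1 := by
      rw [hρ]
      have := Real.exp_one_lt_d9
      linarith
    have hm : Tendsto (fun L : ℝ => ⌊2 * L⌋₊ - 1) atTop atTop :=
      (tendsto_sub_atTop_nat 1).comp floor_tendsto
    have t1 : Tendsto (fun m : ℕ => (m : ℝ) * ρ ^ m) atTop (𝓝 0) :=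
      tendsto_self_mul_const_pow_of_lt_one hρ0.le hρ1
    have t2 : Tendsto (fun m : ℕ => ρ ^ m) atTop (𝓝 0) :=
      tendsto_pow_atTop_nhds_zero_of_lt_one hρ0.le hρ1
    have t3 : Tendsto (fun m : ℕ => 16 * Real.exp 2 * (((m : ℝ) * ρ ^ m) + 2 * ρ ^ m)) atTop (𝓝 0) := by
      have := (t1.add (t2.const_mul 2)).const_mul (16 * Real.exp 2)
      simpa using this
    refine tendsto_of_tendsto_of_tendsto_of_le_of_le' tendsto_const_nhds (t3.comp hm) ?_ ?_
    · filter_upwards [eventually_ge_atTop (1 : ℝ)] with L hL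
      have : 0 ≤ L := by linarith
      positivity
    · filter_upwards [eventually_ge_atTop (1 : ℝ)] with L hL
      have hL0 : 0 ≤ L := by linarith
      obtain ⟨k, hk⟩ : ∃ k : ℕ, k = ⌊2 * L⌋₊ := ⟨_, rfl⟩
      have hk1 : 2 * L < k + 1 := by
        rw [hk]
        exact Nat.lt_floor_add_one _
      have hk2 : 2 ≤ k := by
        rw [hk]
        apply Nat.le_floor
        push_cast
        linarith
      obtain ⟨m, rfl⟩ : ∃ m : ℕ, k = m + 1 := ⟨k - 1, by omega⟩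
      rw [← hk]
      simp only [Function.comp, ← hk, Nat.add_sub_cancel]
      push_cast at hk1
      have a1 := term_le hL0 (n := m) (by linarith)
      have a2 := term_le hL0 (n := m + 1) (by push_cast; linarith)
      rw [← hρ] at a1 a2
      have a3 : ρ ^ (m + 1) ≤ ρ ^ m := pow_le_pow_of_le_one hρ0.le hρ1.le (Nat.le_succ m)
      have a4 : Real.exp 2 * ρ ^ (m + 1) ≤ Real.exp 2 * ρ ^ m :=
        mul_le_mul_of_nonneg_left a3 (Real.exp_pos 2).le
      have hm0 : (0 : ℝ) ≤ m := Nat.cast_nonneg m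
      have a5 : 0 ≤ Real.exp 2 * ρ ^ m := by positivity
      calc (L + 1) * (8 * ((3 / 5 * L) ^ m / (Nat.factorial m : ℝ) +
            (3 / 5 * L) ^ (m + 1) / (Nat.factorial (m + 1) : ℝ)))
          ≤ (L + 1) * (8 * (Real.exp 2 * ρ ^ m + Real.exp 2 * ρ ^ m)) := by
            apply mul_le_mul_of_nonneg_left _ (by linarith)
            linarith
        _ = 16 * (L + 1) * (Real.exp 2 * ρ ^ m) := by ring
        _ ≤ 16 * (m + 2) * (Real.exp 2 * ρ ^ m) := by
            apply mul_le_mul_of_nonneg_right _ a5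
            linarith
        _ = 16 * Real.exp 2 * (((m : ℝ) * ρ ^ m) + 2 * ρ ^ m) := by ring
  · have t1 : Tendsto (fun k : ℕ => 1 / 3 * (17 / 16 : ℝ) ^ k) atTop atTop :=
      (tendsto_pow_atTop_atTop_of_one_lt (by norm_num)).const_mul_atTop (by norm_num)
    refine tendsto_atTop_mono' _ ?_ (t1.comp floor_tendsto)
    filter_upwards [eventually_ge_atTop (18 : ℝ)] with L hL
    simp only [Function.comp]
    obtain ⟨k, hk⟩ : ∃ k : ℕ, k = ⌊2 * L⌋₊ := ⟨_, rfl⟩
    rw [← hk]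
    have hk1 : (k : ℝ) ≤ 2 * L := by
      rw [hk]
      exact Nat.floor_le (by linarith)
    have hk2 : 2 ≤ k := by
      rw [hk]
      apply Nat.le_floor
      push_cast
      linarith
    have hk0 : (0 : ℝ) < k := by exact_mod_cast (by omega : 0 < k)
    have hf := fact_le hk2
    have hf0 : (0 : ℝ) < (Nat.factorial k : ℝ) := by exact_mod_cast Nat.factorial_pos k
    have b1 : (17 / 16 : ℝ) * k ≤ 9 / 4 * (L - 1) := by nlinarith
    have b2 : (17 / 16 : ℝ) ^ k * (k : ℝ) ^ k ≤ (9 / 4) ^ k * (L - 1) ^ k := by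
      rw [← mul_pow, ← mul_pow]
      exact pow_le_pow_left₀ (by positivity) b1 k
    rw [le_div_iff₀ hf0]
    have b3 : (1 / 3 * (17 / 16 : ℝ) ^ k) * ((Nat.factorial k : ℝ) * (9 / 4) ^ k) ≤
        (L - 1) ^ k * (9 / 4) ^ k := by
      calc (1 / 3 * (17 / 16 : ℝ) ^ k) * ((Nat.factorial k : ℝ) * (9 / 4) ^ k)
          ≤ (1 / 3 * (17 / 16 : ℝ) ^ k) * (3 * (k : ℝ) ^ k) :=
            mul_le_mul_of_nonneg_left hf (by positivity)
        _ = (17 / 16 : ℝ) ^ k * (k : ℝ) ^ k := by ring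
        _ ≤ (9 / 4) ^ k * (L - 1) ^ k := b2
        _ = (L - 1) ^ k * (9 / 4) ^ k := by ring
    have b4 : (0 : ℝ) < (9 / 4) ^ k := by positivity
    rw [← mul_assoc] at b3
    exact le_of_mul_le_mul_right b3 b4

end Pool.Agent.J4H4.HN
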